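import Pool.Agent.Helper90.VS.Defs2

/-!
# The right-angle corner of `DD m a` at `1` (R8b2 of MP_539ca6_an)
-/

open MeasureTheory Set Filter Topology

namespace Pool.Agent.Helper28.VS

open Pool.Agent.Helper90.VS

noncomputable section

/-- the two facts on the relative stream function which are used here -/
structure PlaneData (m : ℕ) (a : ℝ → ℝ) : Prop where
  cont : Continuous (FF m a)
  eq : ∀ x : ℂ, Real.exp (-10) ≤ ‖x‖ ^ m → ‖x‖ ≤ 1 →
    (m:ℝ) ^ 2 * FF m a x = Phi m a |Complex.arg (x ^ m)| (-(m * Real.log ‖x‖))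

variable {m : ℕ} {a : ℝ → ℝ}

lemma norm_pt (_hm : 2 ≤ m) (X t : ℝ) : ‖pt m X t‖ = Real.exp (-(t / m)) := by
  unfold pt
  rw [Complex.norm_exp]
  congr 1
  have : ((-(t:ℂ) + X * Complex.I) / m) = ((-t / m : ℝ) : ℂ) + ((X / m : ℝ) : ℂ) * Complex.I := by
    push_cast; ring
  rw [this]
  simp
  ring

lemma pt_pow (hm : 2 ≤ m) (X t : ℝ) : (pt m X t) ^ m = Complex.exp (-(t:ℂ) + X * Complex.I) := by
  unfold pt
  rw [← Complex.exp_nat_mul]
  congr 1
  have : (m:ℂ) ≠ 0 := by exact_mod_cast (by omega : m ≠ 0)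
  field_simp

lemma norm_pt_pow (hm : 2 ≤ m) (X t : ℝ) : ‖pt m X t‖ ^ m = Real.exp (-t) := by
  rw [← norm_pow, pt_pow hm, Complex.norm_exp]
  simp

lemma arg_pt_pow (hm : 2 ≤ m) (X t : ℝ) (hX : |X| < Real.pi) :
    Complex.arg ((pt m X t) ^ m) = X := by
  rw [pt_pow hm, Complex.arg_exp]
  simp only [Complex.add_im, Complex.neg_im, Complex.ofReal_im, neg_zero, Complex.mul_im,
    Complex.ofReal_re, Complex.I_im, mul_one, Complex.I_re, mul_zero, add_zero, zero_add]
  rw [toIocMod_eq_self]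
  rw [abs_lt] at hX
  constructor
  · linarith [hX.1]
  · linarith [hX.2]

lemma log_norm_pt (hm : 2 ≤ m) (X t : ℝ) : -(m * Real.log ‖pt m X t‖) = t := by
  rw [norm_pt hm, Real.log_exp]
  have : (m:ℝ) ≠ 0 := by exact_mod_cast (by omega : m ≠ 0)
  field_simp

lemma norm_pt_le (hm : 2 ≤ m) (X : ℝ) {t : ℝ} (ht : 0 ≤ t) : ‖pt m X t‖ ≤ 1 := by
  rw [norm_pt hm, Real.exp_le_one_iff]
  have : 0 ≤ t / m := by positivity
  linarith

lemma norm_pt_lt (hm : 2 ≤ m) (X : ℝ) {t : ℝ} (ht : 0 < t) : ‖pt m X t‖ < 1 := by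
  rw [norm_pt hm, Real.exp_lt_one_iff]
  have hm' : (0:ℝ) < m := by exact_mod_cast (by omega : 0 < m)
  have : 0 < t / m := by positivity
  linarith

lemma FF_pt_eq (hp : PlaneData m a) (hm : 2 ≤ m) (X t : ℝ) (hX : |X| < Real.pi)
    (h0 : 0 ≤ t) (h1 : t ≤ 10) : (m:ℝ) ^ 2 * FF m a (pt m X t) = Phi m a |X| t := by
  have h := hp.eq (pt m X t) (by rw [norm_pt_pow hm]; exact Real.exp_le_exp.mpr (by linarith))
    (norm_pt_le hm X h0)
  rw [arg_pt_pow hm X t hX, log_norm_pt hm] at h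
  exact h

lemma FF_neg (hp : PlaneData m a) (h : FixData m a) (X t : ℝ) (hX : |X| < Real.pi)
    (h0 : 0 ≤ t) (h1 : t ≤ 10) (hlt : |X| < a t) : FF m a (pt m X t) < 0 := by
  have e := FF_pt_eq hp h.hm X t hX h0 h1
  have h2 := h.neg |X| t (abs_nonneg X) ⟨h0, h1⟩ hlt
  rw [← e] at h2
  have hm' : (0:ℝ) < m ^ 2 := by
    have : 0 < m := by have := h.hm; omega
    positivity
  by_contra hc
  have : 0 ≤ (m:ℝ) ^ 2 * FF m a (pt m X t) := mul_nonneg hm'.le (not_lt.mp hc)
  linarith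

lemma FF_pos (hp : PlaneData m a) (h : FixData m a) (X t : ℝ) (hX : |X| < Real.pi)
    (h0 : 0 ≤ t) (h1 : t ≤ 10) (hlt : a t < |X|) : 0 < FF m a (pt m X t) := by
  have e := FF_pt_eq hp h.hm X t hX h0 h1
  have h2 := h.pos |X| t hX.le ⟨h0, h1⟩ hlt
  rw [← e] at h2
  have hm' : (0:ℝ) < m ^ 2 := by
    have : 0 < m := by have := h.hm; omega
    positivity
  by_contra hc
  have : (m:ℝ) ^ 2 * FF m a (pt m X t) ≤ 0 := mul_nonpos_of_nonneg_of_nonpos hm'.le (not_lt.mp hc)
  linarith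

lemma mem_DD_pt (hp : PlaneData m a) (h : FixData m a) (X t : ℝ) (hX : |X| < Real.pi)
    (h0 : 0 < t) (h1 : t ≤ 10) (hlt : |X| < a t) : pt m X t ∈ DD m a :=
  ⟨norm_pt_lt h.hm X h0, Or.inr (FF_neg hp h X t hX h0.le h1 hlt)⟩

lemma not_closure (hp : PlaneData m a) (x : ℂ) (hx : Real.exp (-10) < ‖x‖ ^ m)
    (hF : 0 < FF m a x) : x ∉ closure (DD m a) := by
  intro hc
  have hU : IsOpen {y : ℂ | Real.exp (-10) < ‖y‖ ^ m ∧ 0 < FF m a y} := by
    have h1 : IsOpen {y : ℂ | Real.exp (-10) < ‖y‖ ^ m} :=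
      isOpen_lt continuous_const (by fun_prop)
    have h2 : IsOpen {y : ℂ | 0 < FF m a y} := isOpen_lt continuous_const hp.cont
    exact h1.inter h2
  rw [mem_closure_iff] at hc
  obtain ⟨y, hy1, hy2⟩ := hc _ hU ⟨hx, hF⟩
  rcases hy2.2 with h | h
  · exact absurd hy1.1 (not_lt.mpr h.le)
  · exact absurd hy1.2 (not_lt.mpr h.le)

lemma closure_norm_le {x : ℂ} (hx : x ∈ closure (DD m a)) : ‖x‖ ≤ 1 := by
  have h1 : closure (DD m a) ⊆ Metric.closedBall 0 1 := by
    apply closure_minimal _ Metric.isClosed_closedBall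
    intro y hy
    rw [mem_closedBall_zero_iff]
    exact hy.1.le
  have := h1 hx
  rwa [mem_closedBall_zero_iff] at this

lemma isOpen_DD (hp : PlaneData m a) : IsOpen (DD m a) := by
  have h1 : IsOpen {x : ℂ | ‖x‖ < 1} := isOpen_lt (by fun_prop) continuous_const
  have h2 : IsOpen {x : ℂ | ‖x‖ ^ m < Real.exp (-10)} := isOpen_lt (by fun_prop) continuous_const
  have h3 : IsOpen {x : ℂ | FF m a x < 0} := isOpen_lt hp.cont continuous_const
  exact h1.inter (h2.union h3)

lemma eq_pt (hm : 2 ≤ m) {x : ℂ} (hx : x ≠ 0) :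
    x = pt m (m * (Complex.log x).im) (-(m * (Complex.log x).re)) := by
  unfold pt
  have hm' : (m:ℂ) ≠ 0 := by exact_mod_cast (by omega : m ≠ 0)
  have : ((-((-(m * (Complex.log x).re) : ℝ) : ℂ) + ((m * (Complex.log x).im : ℝ) : ℂ) * Complex.I) / m)
      = Complex.log x := by
    rw [div_eq_iff hm']
    conv_rhs => rw [← Complex.re_add_im (Complex.log x)]
    push_cast
    ring
  rw [this, Complex.exp_log hx]

lemma continuous_pt (m : ℕ) : Continuous (fun q : ℝ × ℝ => pt m q.1 q.2) := by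
  unfold pt; fun_prop

lemma mem_closure_graph (hp : PlaneData m a) (h : FixData m a) (X t : ℝ) (hX : |X| < Real.pi)
    (h0 : 0 < t) (h1 : t ≤ 10) (hat : 0 < a t) (he : |X| = a t) :
    pt m X t ∈ closure (DD m a) := by
  -- the points `pt m (s X) t`, `s ↑ 1`
  have hc : Tendsto (fun s : ℝ => pt m (s * X) t) (𝓝[<] 1) (𝓝 (pt m X t)) := by
    have : Continuous (fun s : ℝ => pt m (s * X) t) := by unfold pt; fun_prop
    have h2 := this.tendsto 1
    rw [one_mul] at h2
    exact h2.mono_left nhdsWithin_le_nhds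
  apply mem_closure_of_tendsto hc
  have h3 : ∀ᶠ s : ℝ in 𝓝[<] 1, 0 < s := by
    apply Filter.Eventually.filter_mono nhdsWithin_le_nhds
    exact lt_mem_nhds one_pos
  filter_upwards [h3, self_mem_nhdsWithin] with s hs0 hs1
  have hs1' : s < 1 := hs1
  have hlt : |s * X| < a t := by
    rw [abs_mul, abs_of_pos hs0, he]
    nlinarith
  exact mem_DD_pt hp h _ _ (lt_of_lt_of_le (by rw [← he] at hlt; exact hlt) hX.le) h0 h1 hlt

lemma FF_graph_nonneg (hp : PlaneData m a) (h : FixData m a) (X t : ℝ) (hX : |X| < Real.pi)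
    (h0 : 0 ≤ t) (h1 : t ≤ 10) (hX0 : X ≠ 0) (he : |X| = a t) :
    0 ≤ FF m a (pt m X t) := by
  have hc : Tendsto (fun s : ℝ => FF m a (pt m (s * X) t)) (𝓝[>] 1) (𝓝 (FF m a (pt m X t))) := by
    have : Continuous (fun s : ℝ => FF m a (pt m (s * X) t)) := by
      apply hp.cont.comp
      unfold pt; fun_prop
    have h2 := this.tendsto 1
    simp only [one_mul] at h2
    exact h2.mono_left nhdsWithin_le_nhds
  refine ge_of_tendsto hc ?_
  have hXpos : 0 < |X| := abs_pos.mpr hX0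
  have h3 : ∀ᶠ s : ℝ in 𝓝[>] 1, s * |X| < Real.pi := by
    apply Filter.Eventually.filter_mono nhdsWithin_le_nhds
    have : Continuous (fun s : ℝ => s * |X|) := by fun_prop
    have h2 := this.tendsto 1
    simp only [one_mul] at h2
    exact h2.eventually (gt_mem_nhds hX)
  filter_upwards [h3, self_mem_nhdsWithin] with s hs0 hs1
  have hs1' : 1 < s := hs1
  have e : |s * X| = s * |X| := by rw [abs_mul, abs_of_pos (by linarith)]
  apply le_of_lt
  apply FF_pos hp h _ _ (by rw [e]; exact hs0) h0 h1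
  rw [e, ← he]
  nlinarith

lemma FF_graph_nonpos (hp : PlaneData m a) (h : FixData m a) (X t : ℝ) (hX : |X| < Real.pi)
    (h0 : 0 < t) (h1 : t ≤ 10) (hat : 0 < a t) (he : |X| = a t) :
    FF m a (pt m X t) ≤ 0 := by
  have hc : Tendsto (fun s : ℝ => FF m a (pt m (s * X) t)) (𝓝[<] 1) (𝓝 (FF m a (pt m X t))) := by
    have : Continuous (fun s : ℝ => FF m a (pt m (s * X) t)) := by
      apply hp.cont.comp
      unfold pt; fun_prop
    have h2 := this.tendsto 1
    simp only [one_mul] at h2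
    exact h2.mono_left nhdsWithin_le_nhds
  refine le_of_tendsto hc ?_
  have h3 : ∀ᶠ s : ℝ in 𝓝[<] 1, 0 < s := by
    apply Filter.Eventually.filter_mono nhdsWithin_le_nhds
    exact lt_mem_nhds one_pos
  filter_upwards [h3, self_mem_nhdsWithin] with s hs0 hs1
  have hs1' : s < 1 := hs1
  have hlt : |s * X| < a t := by
    rw [abs_mul, abs_of_pos hs0, he]
    nlinarith
  exact (FF_neg hp h _ _ (lt_of_lt_of_le (by rw [← he] at hlt; exact hlt) hX.le) h0.le h1 hlt).le

/-! ### the arcs -/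

/-- the two boundary arcs, `ε = ±1` -/
def arc (m : ℕ) (a : ℝ → ℝ) (ε T s : ℝ) : ℂ := pt m (ε * a (T * s)) (T * s)

/-- the derivative of `arc` -/
def arc' (m : ℕ) (a a' : ℝ → ℝ) (ε T s : ℝ) : ℂ :=
  arc m a ε T s * ((-(T:ℂ) + ((ε * (a' (T * s) * T) : ℝ) : ℂ) * Complex.I) / m)

lemma LocData.restrict {tt T : ℝ} {a' : ℝ → ℝ} (hl : LocData a tt a') (h0 : 0 < T) (h1 : T ≤ tt) :
    LocData a T a' where
  pos := h0
  lt10 := lt_of_le_of_lt h1 hl.lt10
  a0 := hl.a0
  a'0 := hl.a'0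
  deriv := fun t ht => (hl.deriv t ⟨ht.1, ht.2.trans h1⟩).mono (Icc_subset_Icc le_rfl h1)
  cont := hl.cont.mono (Icc_subset_Icc le_rfl h1)
  apos := fun t ht => hl.apos t ⟨ht.1, ht.2.trans h1⟩

lemma maps_T {T : ℝ} (hT : 0 < T) : MapsTo (fun s : ℝ => T * s) (Icc 0 1) (Icc 0 T) := by
  intro s hs
  exact ⟨mul_nonneg hT.le hs.1, by nlinarith [hs.2]⟩

lemma arc_hasDeriv {T : ℝ} {a' : ℝ → ℝ} (hl : LocData a T a') (ε s : ℝ) (hs : s ∈ Icc (0:ℝ) 1) :
    HasDerivWithinAt (arc m a ε T) (arc' m a a' ε T s) (Icc 0 1) s := by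
  have h1 : HasDerivWithinAt (fun s : ℝ => T * s) T (Icc 0 1) s := by
    simpa using ((hasDerivAt_id s).const_mul T).hasDerivWithinAt
  have h2 : HasDerivWithinAt (fun s : ℝ => a (T * s)) (a' (T * s) * T) (Icc 0 1) s :=
    (hl.deriv (T * s) (maps_T hl.pos hs)).comp s h1 (maps_T hl.pos)
  have h3 : HasDerivWithinAt (fun s : ℝ => ε * a (T * s)) (ε * (a' (T * s) * T)) (Icc 0 1) s :=
    h2.const_mul ε
  have h4 : HasDerivWithinAt (fun s : ℝ => ((T * s : ℝ) : ℂ)) ((T : ℝ) : ℂ) (Icc 0 1) s :=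
    h1.ofReal_comp
  have h5 : HasDerivWithinAt (fun s : ℝ => ((ε * a (T * s) : ℝ) : ℂ))
      ((ε * (a' (T * s) * T) : ℝ) : ℂ) (Icc 0 1) s := h3.ofReal_comp
  have h6 := ((h4.neg.add (h5.mul_const Complex.I)).div_const (m:ℂ)).cexp
  exact h6

lemma arc_continuousOn {T : ℝ} {a' : ℝ → ℝ} (hl : LocData a T a') (ε : ℝ) :
    ContinuousOn (arc m a ε T) (Icc 0 1) :=
  fun s hs => (arc_hasDeriv hl ε s hs).continuousWithinAt

lemma arc_isC1 (hm : 2 ≤ m) {T : ℝ} {a' : ℝ → ℝ} (hl : LocData a T a') (ε : ℝ) :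
    IsC1Arc (arc m a ε T) (arc' m a a' ε T) 1 where
  start := by simp [arc, hl.a0, pt]
  deriv := fun s hs => arc_hasDeriv hl ε s hs
  cont := by
    unfold arc'
    apply (arc_continuousOn hl ε).mul
    apply ContinuousOn.div_const
    apply continuousOn_const.add
    apply ContinuousOn.mul _ continuousOn_const
    apply Complex.continuous_ofReal.comp_continuousOn
    apply continuousOn_const.mul
    apply ContinuousOn.mul _ continuousOn_const
    exact hl.cont.comp (by fun_prop) (maps_T hl.pos)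
  regular := fun s _ => by
    unfold arc'
    have hm' : (m:ℂ) ≠ 0 := by exact_mod_cast (by omega : m ≠ 0)
    apply mul_ne_zero
    · unfold arc pt; exact Complex.exp_ne_zero _
    · apply div_ne_zero _ hm'
      intro h
      have := congrArg Complex.re h
      simp at this
      exact hl.pos.ne' this
  inj := by
    intro s _ s' _ he
    have h1 := congrArg (fun z : ℂ => -(m * Real.log ‖z‖)) he
    simp only [arc] at h1
    rw [log_norm_pt hm, log_norm_pt hm] at h1
    exact mul_left_cancel₀ hl.pos.ne' h1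

lemma arc_inter (hm : 2 ≤ m) (ha : Prof a) {T : ℝ} {a' : ℝ → ℝ} (hl : LocData a T a')
    (haT : a T ≤ 1) :
    arc m a 1 T '' Icc 0 1 ∩ arc m a (-1) T '' Icc 0 1 = {1} := by
  ext x
  constructor
  · rintro ⟨⟨s, hs, rfl⟩, ⟨s', hs', he⟩⟩
    have h1 := congrArg (fun z : ℂ => -(m * Real.log ‖z‖)) he
    simp only [arc] at h1
    rw [log_norm_pt hm, log_norm_pt hm] at h1
    have hss : s' = s := mul_left_cancel₀ hl.pos.ne' h1
    subst hss
    have hle : a (T * s') ≤ 1 := (ha.mono (maps_T hl.pos hs).2).trans haT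
    have hge := ha.nonneg (T * s')
    have hpi := Real.pi_gt_three
    have h2 := congrArg (fun z : ℂ => Complex.arg (z ^ m)) he
    simp only [arc] at h2
    rw [arg_pt_pow hm _ _ (by rw [abs_lt]; constructor <;> linarith),
      arg_pt_pow hm _ _ (by rw [abs_lt]; constructor <;> linarith)] at h2
    have h3 : a (T * s') = 0 := by linarith
    have h4 : T * s' = 0 := by
      by_contra hne
      have h5 : 0 < T * s' := lt_of_le_of_ne (maps_T hl.pos hs).1 (Ne.symm hne)
      have := hl.apos _ ⟨h5, (maps_T hl.pos hs).2⟩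
      linarith
    simp [arc, h4, hl.a0, pt]
  · intro hx
    rw [mem_singleton_iff] at hx
    subst hx
    constructor
    · exact ⟨0, ⟨le_rfl, zero_le_one⟩, by simp [arc, hl.a0, pt]⟩
    · exact ⟨0, ⟨le_rfl, zero_le_one⟩, by simp [arc, hl.a0, pt]⟩

lemma one_mem_closure (hp : PlaneData m a) (h : FixData m a) {T : ℝ} {a' : ℝ → ℝ}
    (hl : LocData a T a') : (1:ℂ) ∈ closure (DD m a) := by
  have hc : Tendsto (fun t : ℝ => pt m 0 t) (𝓝[>] 0) (𝓝 1) := by
    have : Continuous (fun t : ℝ => pt m 0 t) := by unfold pt; fun_prop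
    have h2 := this.tendsto 0
    have e : pt m 0 0 = 1 := by simp [pt]
    rw [e] at h2
    exact h2.mono_left nhdsWithin_le_nhds
  apply mem_closure_of_tendsto hc
  have : Ioc (0:ℝ) T ∈ 𝓝[>] (0:ℝ) := Ioc_mem_nhdsGT hl.pos
  filter_upwards [this] with t ht
  apply mem_DD_pt hp h 0 t (by simpa using Real.pi_pos) ht.1 (ht.2.trans hl.lt10.le)
  simpa using hl.apos t ht

lemma one_not_mem : (1:ℂ) ∉ DD m a := by
  intro h
  have := h.1
  simp at this

lemma frontier_eq (hp : PlaneData m a) : frontier (DD m a) = closure (DD m a) \ DD m a := by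
  rw [frontier, (isOpen_DD hp).interior_eq]

lemma one_mem_frontier (hp : PlaneData m a) (h : FixData m a) {T : ℝ} {a' : ℝ → ℝ}
    (hl : LocData a T a') : (1:ℂ) ∈ frontier (DD m a) := by
  rw [frontier_eq hp]
  exact ⟨one_mem_closure hp h hl, one_not_mem⟩

lemma graph_mem_frontier (hp : PlaneData m a) (h : FixData m a) {T : ℝ} {a' : ℝ → ℝ}
    (hl : LocData a T a') (haT : a T ≤ 1) (X t : ℝ) (ht : t ∈ Icc 0 T) (hX : |X| = a t) :
    pt m X t ∈ frontier (DD m a) := by
  have hpi := Real.pi_gt_three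
  rcases eq_or_lt_of_le ht.1 with h0 | h0
  · subst h0
    rw [hl.a0, abs_eq_zero] at hX
    subst hX
    have e : pt m 0 0 = 1 := by simp [pt]
    rw [e]
    exact one_mem_frontier hp h hl
  · have hle : a t ≤ 1 := (h.prof.mono ht.2).trans haT
    have hXp : |X| < Real.pi := by rw [hX]; linarith
    have hat : 0 < a t := hl.apos t ⟨h0, ht.2⟩
    have ht10 : t < 10 := lt_of_le_of_lt ht.2 hl.lt10
    rw [frontier_eq hp]
    refine ⟨mem_closure_graph hp h X t hXp h0 ht10.le hat hX, ?_⟩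
    rintro ⟨_, h2 | h2⟩
    · rw [norm_pt_pow h.hm, Real.exp_lt_exp] at h2
      linarith
    · have hX0 : X ≠ 0 := by
        intro h3; rw [h3, abs_zero] at hX; linarith
      have := FF_graph_nonneg hp h X t hXp h0.le ht10.le hX0 hX
      linarith

lemma frontier_local (hp : PlaneData m a) (h : FixData m a) {T : ℝ} {a' : ℝ → ℝ}
    (hl : LocData a T a') (haT : a T ≤ 1) :
    ∃ r > 0, frontier (DD m a) ∩ Metric.ball 1 r =
      (arc m a 1 T '' Icc 0 1 ∪ arc m a (-1) T '' Icc 0 1) ∩ Metric.ball 1 r := by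
  have hpi := Real.pi_gt_three
  have hm0 : (0:ℝ) < m := by have := h.hm; exact_mod_cast (by omega : 0 < m)
  have hcont : ContinuousAt Complex.log 1 := continuousAt_clog (by simp [Complex.slitPlane])
  have hev : ∀ᶠ x : ℂ in 𝓝 1, ‖Complex.log x‖ < min T 1 / m ∧ x ≠ 0 := by
    apply Filter.Eventually.and
    · have h1 : Tendsto (fun x => ‖Complex.log x‖) (𝓝 1) (𝓝 0) := by
        have := hcont.norm.tendsto
        simpa using this
      exact h1.eventually (gt_mem_nhds (div_pos (lt_min hl.pos one_pos) hm0))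
    · exact isOpen_ne.mem_nhds one_ne_zero
  obtain ⟨r, hr, hball⟩ := Metric.eventually_nhds_iff_ball.mp hev
  refine ⟨r, hr, ?_⟩
  ext x
  constructor
  · rintro ⟨hx, hxb⟩
    refine ⟨?_, hxb⟩
    obtain ⟨hlog, hx0⟩ := hball x hxb
    have hre : |(Complex.log x).re| < min T 1 / m :=
      lt_of_le_of_lt (Complex.abs_re_le_norm _) hlog
    have him : |(Complex.log x).im| < min T 1 / m :=
      lt_of_le_of_lt (Complex.abs_im_le_norm _) hlog
    rw [lt_div_iff₀ hm0] at hre him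
    have heq := eq_pt h.hm hx0
    set X := (m:ℝ) * (Complex.log x).im with hXdef
    set t := -((m:ℝ) * (Complex.log x).re) with htdef
    have hX1 : |X| < 1 := by
      rw [hXdef, abs_mul, abs_of_pos hm0, mul_comm]
      exact lt_of_lt_of_le him (min_le_right _ _)
    have ht1 : |t| < T := by
      rw [htdef, abs_neg, abs_mul, abs_of_pos hm0, mul_comm]
      exact lt_of_lt_of_le hre (min_le_left _ _)
    rw [frontier_eq hp] at hx
    have hn : ‖x‖ ≤ 1 := closure_norm_le hx.1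
    have ht0 : 0 ≤ t := by
      have : (Complex.log x).re ≤ 0 := by
        rw [Complex.log_re]
        exact Real.log_nonpos (norm_nonneg _) hn
      rw [htdef]
      nlinarith
    have htT : t ≤ T := (le_abs_self t).trans ht1.le
    have ht10 : t < 10 := lt_of_le_of_lt htT hl.lt10
    have hXp : |X| < Real.pi := by linarith
    have key : |X| = a t := by
      rcases lt_trichotomy |X| (a t) with h1 | h1 | h1
      · exfalso
        rcases eq_or_lt_of_le ht0 with h0 | h0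
        · rw [← h0, hl.a0] at h1
          exact absurd h1 (not_lt.mpr (abs_nonneg X))
        · apply hx.2
          rw [heq]
          exact mem_DD_pt hp h X t hXp h0 ht10.le h1
      · exact h1
      · exfalso
        have h2 := FF_pos hp h X t hXp ht0 ht10.le h1
        apply not_closure hp (pt m X t) _ h2
        · rw [← heq]; exact hx.1
        · rw [norm_pt_pow h.hm, Real.exp_lt_exp]; linarith
    have hs : t / T ∈ Icc (0:ℝ) 1 := ⟨div_nonneg ht0 hl.pos.le, by
      rw [div_le_one hl.pos]; exact htT⟩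
    have hTs : T * (t / T) = t := by
      have := hl.pos.ne'
      field_simp
    rcases abs_choice X with h1 | h1
    · left
      refine ⟨t / T, hs, ?_⟩
      rw [arc, hTs, one_mul, ← key, h1, ← heq]
    · right
      refine ⟨t / T, hs, ?_⟩
      rw [arc, hTs, ← key, h1]
      rw [neg_mul, one_mul, neg_neg, ← heq]
  · rintro ⟨hx, hxb⟩
    refine ⟨?_, hxb⟩
    rcases hx with ⟨s, hs, rfl⟩ | ⟨s, hs, rfl⟩
    · apply graph_mem_frontier hp h hl haT _ _ (maps_T hl.pos hs)
      rw [one_mul, abs_of_nonneg (h.prof.nonneg _)]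
    · apply graph_mem_frontier hp h hl haT _ _ (maps_T hl.pos hs)
      rw [neg_mul, one_mul, abs_neg, abs_of_nonneg (h.prof.nonneg _)]

/-! ### rays -/

lemma a_div_tendsto {T : ℝ} {a' : ℝ → ℝ} (hl : LocData a T a') :
    Tendsto (fun t => a t / t) (𝓝[>] 0) (𝓝 1) := by
  have h1 := hl.deriv 0 ⟨le_rfl, hl.pos.le⟩
  rw [hl.a'0, hasDerivWithinAt_iff_tendsto_slope] at h1
  have h2 : 𝓝[>] (0:ℝ) ≤ 𝓝[Icc 0 T \ {0}] 0 := by
    have : Icc (0:ℝ) T \ {0} ∈ 𝓝[>] (0:ℝ) := by
      filter_upwards [Ioc_mem_nhdsGT hl.pos] with t ht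
      exact ⟨⟨ht.1.le, ht.2⟩, ht.1.ne'⟩
    exact nhdsWithin_le_iff.mpr this
  have h3 := h1.mono_left h2
  refine h3.congr (fun t => ?_)
  simp [slope_def_field, hl.a0]

lemma log_ray (v : ℂ) : Tendsto (fun s : ℝ => Complex.log (1 + s * v) / s) (𝓝[>] 0) (𝓝 v) := by
  have h1 : HasDerivAt (fun s : ℝ => (1:ℂ) + s * v) v 0 := by
    have := ((Complex.ofRealCLM.hasDerivAt (x := (0:ℝ))).mul_const v).const_add 1
    simpa using this
  have h2 : HasDerivAt (fun s : ℝ => Complex.log (1 + s * v)) v 0 := by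
    have := h1.clog_real (by simp [Complex.slitPlane])
    simpa using this
  have h3 := h2.tendsto_slope_zero_right
  refine h3.congr (fun s => ?_)
  simp [div_eq_inv_mul]

lemma ray (hm : 2 ≤ m) {T : ℝ} {a' : ℝ → ℝ} (hl : LocData a T a') (v : ℂ) (hv : v.re < 0) :
    ∃ X t : ℝ → ℝ, (∀ᶠ s : ℝ in 𝓝[>] 0, 1 + s * v = pt m (X s) (t s) ∧ 0 < t s ∧ t s < 10 ∧
        |X s| < Real.pi) ∧
      Tendsto (fun s => |X s| / s) (𝓝[>] 0) (𝓝 (m * |v.im|)) ∧
      Tendsto (fun s => a (t s) / s) (𝓝[>] 0) (𝓝 (-(m * v.re))) := by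
  have hm0 : (0:ℝ) < m := by exact_mod_cast (by omega : 0 < m)
  set X : ℝ → ℝ := fun s => m * (Complex.log (1 + s * v)).im with hX
  set t : ℝ → ℝ := fun s => -(m * (Complex.log (1 + s * v)).re) with ht
  have hlog := log_ray v
  have hs0 : Tendsto (fun s : ℝ => s) (𝓝[>] 0) (𝓝 0) := tendsto_id.mono_left nhdsWithin_le_nhds
  have h1 : Tendsto (fun s => X s / s) (𝓝[>] 0) (𝓝 (m * v.im)) := by
    have := (Complex.continuous_im.tendsto v).comp hlog
    refine (this.const_mul (m:ℝ)).congr (fun s => ?_)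
    simp only [Function.comp, hX, Complex.div_ofReal_im]
    ring
  have h2 : Tendsto (fun s => t s / s) (𝓝[>] 0) (𝓝 (-(m * v.re))) := by
    have := (Complex.continuous_re.tendsto v).comp hlog
    refine (this.const_mul (m:ℝ)).neg.congr (fun s => ?_)
    simp only [Function.comp, ht, Complex.div_ofReal_re]
    ring
  have hτ : 0 < -(m * v.re) := by nlinarith
  have hX0 : Tendsto X (𝓝[>] 0) (𝓝 0) := by
    have := h1.mul hs0
    rw [mul_zero] at this
    refine this.congr' ?_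
    filter_upwards [self_mem_nhdsWithin] with s hs
    have : s ≠ 0 := ne_of_gt hs
    field_simp
  have ht0 : Tendsto t (𝓝[>] 0) (𝓝 0) := by
    have := h2.mul hs0
    rw [mul_zero] at this
    refine this.congr' ?_
    filter_upwards [self_mem_nhdsWithin] with s hs
    have : s ≠ 0 := ne_of_gt hs
    field_simp
  have htpos : ∀ᶠ s in 𝓝[>] 0, 0 < t s := by
    filter_upwards [h2.eventually (lt_mem_nhds hτ), self_mem_nhdsWithin] with s hs hs'
    have hs'' : 0 < s := hs'
    by_contra hc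
    have : t s / s ≤ 0 := div_nonpos_of_nonpos_of_nonneg (not_lt.mp hc) hs''.le
    linarith
  have ht0' : Tendsto t (𝓝[>] 0) (𝓝[>] 0) :=
    tendsto_nhdsWithin_iff.mpr ⟨ht0, htpos⟩
  refine ⟨X, t, ?_, ?_, ?_⟩
  · have hne : ∀ᶠ s : ℝ in 𝓝[>] 0, (1:ℂ) + s * v ≠ 0 := by
      have : Continuous (fun s : ℝ => (1:ℂ) + s * v) := by fun_prop
      have h3 := this.tendsto 0
      simp only [Complex.ofReal_zero, zero_mul, add_zero] at h3
      exact (h3.mono_left nhdsWithin_le_nhds).eventually (isOpen_ne.mem_nhds one_ne_zero)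
    have hXp : ∀ᶠ s in 𝓝[>] 0, |X s| < Real.pi := by
      have h3 := hX0.abs
      rw [abs_zero] at h3
      exact h3.eventually (gt_mem_nhds Real.pi_pos)
    filter_upwards [hne, hXp, htpos, ht0.eventually (gt_mem_nhds (by norm_num : (0:ℝ) < 10))]
      with s e1 e2 e3 e4
    exact ⟨eq_pt hm e1, e3, e4, e2⟩
  · have := h1.abs
    rw [abs_mul, abs_of_pos hm0] at this
    refine this.congr' ?_
    filter_upwards [self_mem_nhdsWithin] with s hs
    have hs'' : 0 < s := hs
    rw [abs_div, abs_of_pos hs'']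
  · have h3 := (a_div_tendsto hl).comp ht0'
    have h4 := h3.mul h2
    rw [one_mul] at h4
    refine h4.congr' ?_
    filter_upwards [self_mem_nhdsWithin, htpos] with s hs hs2
    have hs'' : s ≠ 0 := ne_of_gt hs
    have hs3 : t s ≠ 0 := hs2.ne'
    simp only [Function.comp]
    field_simp

lemma ray_in (hp : PlaneData m a) (h : FixData m a) {T : ℝ} {a' : ℝ → ℝ} (hl : LocData a T a')
    (v : ℂ) (hv : |v.im| < -v.re) : ∀ᶠ s : ℝ in 𝓝[>] 0, 1 + s * v ∈ DD m a := by
  have hm0 : (0:ℝ) < m := by have := h.hm; exact_mod_cast (by omega : 0 < m)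
  have hv' : v.re < 0 := by have := abs_nonneg v.im; linarith
  obtain ⟨X, t, h1, h2, h3⟩ := ray h.hm hl v hv'
  have hlt : (m:ℝ) * |v.im| < -(m * v.re) := by nlinarith
  filter_upwards [h1, h2.eventually_lt h3 hlt, self_mem_nhdsWithin] with s e1 e2 hs
  have hs'' : 0 < s := hs
  rw [e1.1]
  rw [div_lt_div_iff_of_pos_right hs''] at e2
  exact mem_DD_pt hp h _ _ e1.2.2.2 e1.2.1 e1.2.2.1.le e2

lemma ray_out (hp : PlaneData m a) (h : FixData m a) {T : ℝ} {a' : ℝ → ℝ} (hl : LocData a T a')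
    (v : ℂ) (hv0 : v ≠ 0) (hv : -v.re < |v.im| ∨ 0 ≤ v.re) :
    ∀ᶠ s : ℝ in 𝓝[>] 0, 1 + s * v ∉ closure (DD m a) := by
  have hm0 : (0:ℝ) < m := by have := h.hm; exact_mod_cast (by omega : 0 < m)
  rcases lt_or_ge v.re 0 with hre | hre
  · have hv' : -v.re < |v.im| := by
      rcases hv with h1 | h1
      · exact h1
      · linarith
    obtain ⟨X, t, h1, h2, h3⟩ := ray h.hm hl v hre
    have hlt : -(m * v.re) < (m:ℝ) * |v.im| := by nlinarith
    filter_upwards [h1, h3.eventually_lt h2 hlt, self_mem_nhdsWithin] with s e1 e2 hs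
    have hs'' : 0 < s := hs
    rw [e1.1]
    rw [div_lt_div_iff_of_pos_right hs''] at e2
    apply not_closure hp
    · rw [norm_pt_pow h.hm, Real.exp_lt_exp]; linarith [e1.2.2.1]
    · exact FF_pos hp h _ _ e1.2.2.2 e1.2.1.le e1.2.2.1.le e2
  · filter_upwards [self_mem_nhdsWithin] with s hs
    have hs'' : 0 < s := hs
    intro hc
    have h1 := closure_norm_le hc
    have h2 : ‖(1:ℂ) + s * v‖ ^ 2 ≤ 1 := by
      have := norm_nonneg ((1:ℂ) + s * v)
      nlinarith
    rw [← Complex.normSq_eq_norm_sq, Complex.normSq_apply] at h2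
    simp only [Complex.add_re, Complex.one_re, Complex.mul_re, Complex.ofReal_re,
      Complex.ofReal_im, zero_mul, sub_zero, Complex.add_im, Complex.one_im, Complex.mul_im,
      zero_add, add_zero] at h2
    have h3 : 0 < v.re * v.re + v.im * v.im := by
      rw [← Complex.normSq_apply]
      exact Complex.normSq_pos.mpr hv0
    have h4 : 0 < s * s * (v.re * v.re + v.im * v.im) := by positivity
    have h5 : 0 ≤ s * v.re := mul_nonneg hs''.le hre
    nlinarith

lemma arc'_zero {T : ℝ} {a' : ℝ → ℝ} (hl : LocData a T a') (ε : ℝ) :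
    arc' m a a' ε T 0 = ((T / m : ℝ) : ℂ) * (-1 + (ε : ℂ) * Complex.I) := by
  simp only [arc', arc, mul_zero, hl.a0, hl.a'0, pt]
  simp
  ring

/-- **R8b2**, with the two facts on the stream function as a hypothesis -/
theorem corner_DD_of (hp : PlaneData m a) (h : FixData m a) (tt : ℝ) (a' : ℝ → ℝ)
    (hl : LocData a tt a') : 1 ∈ frontier (DD m a) ∧ IsRightCorner (DD m a) 1 := by
  refine ⟨one_mem_frontier hp h hl, ?_⟩
  have hm0 : (0:ℝ) < m := by have := h.hm; exact_mod_cast (by omega : 0 < m)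
  -- shrink
  obtain ⟨T, hT0, hTt, haT⟩ : ∃ T : ℝ, 0 < T ∧ T ≤ tt ∧ a T ≤ 1 := by
    have h1 := (hl.deriv 0 ⟨le_rfl, hl.pos.le⟩).continuousWithinAt
    have h2 : Tendsto a (𝓝[>] 0) (𝓝 0) := by
      have h3 : Tendsto a (𝓝[Icc 0 tt] 0) (𝓝 (a 0)) := h1
      rw [hl.a0] at h3
      refine h3.mono_left (nhdsWithin_le_iff.mpr ?_)
      filter_upwards [Ioc_mem_nhdsGT hl.pos] with t ht
      exact ⟨ht.1.le, ht.2⟩
    have h3 := h2.eventually (gt_mem_nhds one_pos)
    obtain ⟨T, hT1, hT2⟩ := (h3.and (Ioc_mem_nhdsGT hl.pos)).exists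
    exact ⟨T, hT2.1, hT2.2, hT1.le⟩
  have hl' := LocData.restrict hl hT0 hTt
  obtain ⟨r, hr, hfr⟩ := frontier_local hp h hl' haT
  have hTm : 0 < T / m := div_pos hT0 hm0
  refine ⟨arc m a 1 T, arc' m a a' 1 T, arc m a (-1) T, arc' m a a' (-1) T, r, hr,
    arc_isC1 h.hm hl' 1, arc_isC1 h.hm hl' (-1), arc_inter h.hm h.prof hl' haT, hfr, ?_, ?_, ?_⟩
  · rw [arc'_zero hl', arc'_zero hl']
    simp
  · intro α β hα hβ
    rw [arc'_zero hl', arc'_zero hl']
    set v : ℂ := α * (((T / m : ℝ) : ℂ) * (-1 + ((1:ℝ) : ℂ) * Complex.I)) +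
      β * (((T / m : ℝ) : ℂ) * (-1 + ((-1:ℝ) : ℂ) * Complex.I)) with hv
    have hre : v.re = -(T / m * (α + β)) := by
      rw [hv]; simp; ring
    have him : v.im = T / m * (α - β) := by
      rw [hv]; simp; ring
    apply ray_in hp h hl' v
    rw [hre, him, abs_mul, abs_of_pos hTm, neg_neg]
    apply mul_lt_mul_of_pos_left _ hTm
    rw [abs_lt]; constructor <;> linarith
  · intro v hv
    rw [arc'_zero hl', arc'_zero hl'] at hv
    have hv0 : v ≠ 0 := by
      intro h0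
      apply hv
      exact ⟨0, 0, le_rfl, le_rfl, by simp [h0]⟩
    apply ray_out hp h hl' v hv0
    by_contra hc
    push Not at hc
    obtain ⟨h1, h2⟩ := hc
    apply hv
    rw [abs_le] at h1
    obtain ⟨A, hA⟩ : ∃ A : ℝ, A = (m / (2 * T)) * (-v.re + v.im) := ⟨_, rfl⟩
    obtain ⟨B, hB⟩ : ∃ B : ℝ, B = (m / (2 * T)) * (-v.re - v.im) := ⟨_, rfl⟩
    refine ⟨A, B, ?_, ?_, ?_⟩
    · rw [hA]; apply mul_nonneg (by positivity); linarith [h1.1]
    · rw [hB]; apply mul_nonneg (by positivity); linarith [h1.2]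
    · obtain ⟨c, hc⟩ : ∃ c : ℝ, c = T / m := ⟨_, rfl⟩
      rw [← hc]
      have e1 : (A + B) * c = - v.re := by
        rw [hA, hB, hc]; field_simp; ring
      have e2 : (A - B) * c = v.im := by
        rw [hA, hB, hc]; field_simp; ring
      apply Complex.ext
      · simp
        linarith
      · simp
        linarith

end

end Pool.Agent.Helper28.VS
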